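import Pool.Agent.V1130.FinSyl

/-!
Transitive Sylow `p`-subgroups of transitive finitary groups: images in quotients.
-/

namespace Pool.Agent.Results.MP_055c61_al.SylowQuotient

/-- Let `p` be a prime, `Ω` a set (finite or infinite), `G` a group of finitary permutations of `Ω`
and `S` a Sylow `p`-subgroup of `G`, that is, a maximal `p`-subgroup, which is transitive on `Ω`
(so `G` is transitive too). Then `S N / N` is a Sylow `p`-subgroup of `G / N` for every normal
subgroup `N` of `G`. -/
theorem result (p : ℕ) [Fact p.Prime] (Ω : Type*) (G : Subgroup (Equiv.Perm Ω))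
    (hfin : ∀ g ∈ G, {x : Ω | g x ≠ x}.Finite) (S : Sylow p G)
    (hS : ∀ x y : Ω, ∃ s ∈ S, (s : Equiv.Perm Ω) x = y) (N : Subgroup G) [N.Normal] :
    ∃ T : Sylow p (G ⧸ N), (T : Subgroup (G ⧸ N)) =
      (S : Subgroup G).map (QuotientGroup.mk' N) :=
  Pool.Agent.V1130.FinSyl.quot_sylow hfin S hS N

end Pool.Agent.Results.MP_055c61_al.SylowQuotient
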